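import Pool.Agent.W500.CS.Stm2
import Pool.Agent.H586R3.CT8

/-!
# Project CQ, part PUIS: Puiseux' theorem in convergent form
-/

set_option autoImplicit false
set_option maxHeartbeats 1000000

open MeasureTheory Polynomial Metric Set Filter Topology
open scoped ComplexConjugate

namespace Pool.Agent.W800.CQPUIS

open Pool.Agent.W500.CS
open Pool.Agent.H586R3.CT (exists_branches finite_zeros)

/-- the number of zeros is the degree, so the branches are exactly the zeros -/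
theorem zeros_eq (Q : ℂ[X][X]) {R : ℂ[X]} {V W : ℂ[X][X]} (h : V * Q + W * derivative Q = C R)
    {z : ℂ} (hR : R.eval z ≠ 0) (hl : Q.leadingCoeff.eval z ≠ 0) (f : Fin Q.natDegree → ℂ)
    (hf : ∀ w, Q.evalEval z w = 0 → ∃ i, w = f i) :
    {x : ℂ | Q.evalEval z x = 0} = {x | ∃ i, x = f i} := by
  classical
  have hdeg : (Q.map (evalRingHom z)).natDegree = Q.natDegree :=
    natDegree_map_of_leadingCoeff_ne_zero _ (by simpa using hl)
  have hne0 : Q.map (evalRingHom z) ≠ 0 := by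
    intro h0
    have h1 : (Q.map (evalRingHom z)).coeff Q.natDegree = 0 := by rw [h0, coeff_zero]
    rw [coeff_map] at h1
    exact hl h1
  have hee : ∀ w, Q.evalEval z w = (Q.map (evalRingHom z)).eval w := fun w =>
    (map_evalRingHom_eval z w Q).symm
  set p₀ : ℂ[X] := Q.map (evalRingHom z) with hp₀
  have hsep : p₀.Separable := by
    refine ⟨C (R.eval z)⁻¹ * V.map (evalRingHom z), C (R.eval z)⁻¹ * W.map (evalRingHom z), ?_⟩
    have h1 := congrArg (Polynomial.map (evalRingHom z)) h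
    rw [Polynomial.map_add, Polynomial.map_mul, Polynomial.map_mul, ← derivative_map,
      Polynomial.map_C, ← hp₀, coe_evalRingHom] at h1
    rw [mul_assoc, mul_assoc, ← mul_add, h1, ← C_mul, inv_mul_cancel₀ hR, C_1]
  have hnodup : p₀.roots.Nodup := nodup_roots hsep
  have hcard : Multiset.card p₀.roots = Q.natDegree := by
    rw [← hdeg]
    exact IsAlgClosed.card_roots_eq_natDegree
  have hcard' : p₀.roots.toFinset.card = Q.natDegree := by
    rw [Multiset.toFinset_card_of_nodup hnodup, hcard]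
  have hmem : ∀ w, w ∈ p₀.roots.toFinset ↔ Q.evalEval z w = 0 := by
    intro w
    rw [Multiset.mem_toFinset, mem_roots hne0, hee w]
    rfl
  have hsub : p₀.roots.toFinset ⊆ Finset.univ.image f := by
    intro w hw
    obtain ⟨i, hi⟩ := hf w ((hmem w).1 hw)
    rw [Finset.mem_image]
    exact ⟨i, Finset.mem_univ _, hi.symm⟩
  have hle : (Finset.univ.image f).card ≤ p₀.roots.toFinset.card := by
    rw [hcard']
    refine Finset.card_image_le.trans ?_
    simp
  have heq := Finset.eq_of_subset_of_card_le hsub hle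
  ext w
  rw [Set.mem_ofPred_eq, Set.mem_ofPred_eq, ← hmem w, heq, Finset.mem_image]
  constructor
  · rintro ⟨i, _, hi⟩; exact ⟨i, hi.symm⟩
  · rintro ⟨i, hi⟩; exact ⟨i, Finset.mem_univ _, hi.symm⟩

/-- bound of the roots -/
theorem root_bound (Q : ℂ[X][X]) {z w : ℂ} {M : ℝ} (hl : Q.leadingCoeff.eval z ≠ 0)
    (hM : ∀ i, ‖(Q.coeff i).eval z‖ ≤ M) (hw : Q.evalEval z w = 0) :
    ‖Q.leadingCoeff.eval z‖ * ‖w‖ ≤ M + M := by
  have hdeg : (Q.map (evalRingHom z)).natDegree = Q.natDegree :=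
    natDegree_map_of_leadingCoeff_ne_zero _ (by simpa using hl)
  have hlead : (Q.map (evalRingHom z)).leadingCoeff = Q.leadingCoeff.eval z := by
    rw [leadingCoeff, hdeg, coeff_map]; rfl
  have hne0 : Q.map (evalRingHom z) ≠ 0 := by
    intro h0
    rw [h0, leadingCoeff_zero] at hlead
    exact hl hlead.symm
  have hroot : (Q.map (evalRingHom z)).IsRoot w := by
    show (Q.map (evalRingHom z)).eval w = 0
    rw [map_evalRingHom_eval]; exact hw
  have h1 := IsRoot.norm_lt_cauchyBound hne0 hroot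
  have h2 : (cauchyBound (Q.map (evalRingHom z)) : ℝ) ≤ M / ‖Q.leadingCoeff.eval z‖ + 1 := by
    unfold cauchyBound
    rw [hlead]
    push_cast
    gcongr
    have hM0 : 0 ≤ M := (norm_nonneg _).trans (hM 0)
    have : (Finset.sup (Finset.range (Q.map (evalRingHom z)).natDegree)
        (fun x => ‖(Q.map (evalRingHom z)).coeff x‖₊)) ≤ ⟨M, hM0⟩ := by
      apply Finset.sup_le
      intro i _
      rw [coeff_map]
      exact hM i
    exact this
  have hpos : 0 < ‖Q.leadingCoeff.eval z‖ := norm_pos_iff.2 hl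
  have h3 : ‖w‖ ≤ M / ‖Q.leadingCoeff.eval z‖ + 1 := by
    have h4 : (‖w‖₊ : ℝ) < cauchyBound (Q.map (evalRingHom z)) := by exact_mod_cast h1
    exact (le_of_lt h4).trans h2
  calc ‖Q.leadingCoeff.eval z‖ * ‖w‖ ≤ ‖Q.leadingCoeff.eval z‖ *
      (M / ‖Q.leadingCoeff.eval z‖ + 1) := by gcongr
    _ = M + ‖Q.leadingCoeff.eval z‖ := by field_simp
    _ ≤ M + M := by
      have := hM Q.natDegree
      gcongr
      exact this

theorem main : S_PER → S_PUIS := by
  intro hper Q R V W h hR z₀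
  classical
  have hQ0 : Q ≠ 0 := by
    intro h0
    rw [h0, derivative_zero, mul_zero, mul_zero, add_zero] at h
    exact hR (C_eq_zero.1 h.symm)
  have hl : Q.leadingCoeff ≠ 0 := leadingCoeff_ne_zero.2 hQ0
  -- the leading coefficient at `z₀`
  obtain ⟨g, hg, hgd⟩ := exists_eq_pow_rootMultiplicity_mul_and_not_dvd Q.leadingCoeff hl z₀
  set m := Q.leadingCoeff.rootMultiplicity z₀ with hm
  have hg0 : g.eval z₀ ≠ 0 := fun h0 => hgd (dvd_iff_isRoot.2 h0)
  -- the radius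
  have hev : ∀ᶠ z in 𝓝 z₀, (z ≠ z₀ → R.eval z ≠ 0 ∧ Q.leadingCoeff.eval z ≠ 0) ∧
      ‖g.eval z₀‖ / 2 < ‖g.eval z‖ := by
    have hfin : ((({z : ℂ | R.eval z = 0} ∪ {z : ℂ | Q.leadingCoeff.eval z = 0}) \ {z₀})).Finite :=
      ((finite_zeros hR).union (finite_zeros hl)).subset sdiff_subset
    have h1 : ∀ᶠ z in 𝓝 z₀, z ∉ (({z : ℂ | R.eval z = 0} ∪
        {z : ℂ | Q.leadingCoeff.eval z = 0}) \ {z₀}) :=
      hfin.isClosed.isOpen_compl.mem_nhds (by simp)
    have h2 : ∀ᶠ z in 𝓝 z₀, ‖g.eval z₀‖ / 2 < ‖g.eval z‖ := by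
      have hc : ContinuousAt (fun z : ℂ => ‖g.eval z‖) z₀ := g.continuous.norm.continuousAt
      exact hc.eventually_const_lt (by
        have := norm_pos_iff.2 hg0
        linarith)
    filter_upwards [h1, h2] with z hz1 hz2
    refine ⟨fun hz => ?_, hz2⟩
    constructor
    · intro h0; exact hz1 ⟨Or.inl h0, hz⟩
    · intro h0; exact hz1 ⟨Or.inr h0, hz⟩
  obtain ⟨ρ₁, hρ₁, hball⟩ := Metric.eventually_nhds_iff_ball.1 hev
  set ρ₀ := min 1 ρ₁ with hρ₀
  have hρ₀pos : 0 < ρ₀ := lt_min one_pos hρ₁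
  have hρ₀1 : ρ₀ ≤ 1 := min_le_left _ _
  have hgood : ∀ z, 0 < ‖z - z₀‖ → ‖z - z₀‖ < ρ₀ → R.eval z ≠ 0 ∧ Q.leadingCoeff.eval z ≠ 0 ∧
      ‖g.eval z₀‖ / 2 < ‖g.eval z‖ := by
    intro z hz1 hz2
    have hz3 : z ∈ ball z₀ ρ₁ := by
      rw [mem_ball, dist_eq_norm]; exact lt_of_lt_of_le hz2 (min_le_right _ _)
    obtain ⟨h1, h2⟩ := hball z hz3
    have h3 := h1 (fun h0 => by rw [h0, sub_self, norm_zero] at hz1; exact lt_irrefl _ hz1)
    exact ⟨h3.1, h3.2, h2⟩
  obtain ⟨N, hN, a, ha⟩ := hper ρ₀ z₀ (fun z => {x : ℂ | Q.evalEval z x = 0}) Q.natDegree hρ₀pos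
    (by
      intro z hz1 hz2
      obtain ⟨h1, h2, _⟩ := hgood z hz1 hz2
      obtain ⟨r, hr, A, hA1, hA2, hA3⟩ := exists_branches Q h h1 h2
      have hopen : IsOpen {w : ℂ | 0 < ‖w - z₀‖ ∧ ‖w - z₀‖ < ρ₀} := by
        have hc : Continuous fun w : ℂ => ‖w - z₀‖ := (continuous_id.sub continuous_const).norm
        exact (isOpen_lt continuous_const hc).inter (isOpen_lt hc continuous_const)
      obtain ⟨r', hr', hsub⟩ := Metric.isOpen_iff.1 hopen z ⟨hz1, hz2⟩
      refine ⟨min r r', lt_min hr hr', A, ?_, ?_, ?_⟩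
      · intro i
        exact (hA1 i).mono (ball_subset_ball (min_le_left _ _))
      · intro i j hij w hw
        exact hA2 i j hij w (ball_subset_ball (min_le_left _ _) hw)
      · intro w hw
        have hw1 := hsub (ball_subset_ball (min_le_right _ _) hw)
        obtain ⟨h3, h4, _⟩ := hgood w hw1.1 hw1.2
        exact zeros_eq Q h h3 h4 (fun i => A i w)
          (fun x hx => hA3 w (ball_subset_ball (min_le_left _ _) hw) x hx))
  obtain ⟨ha1, ha2, ha3⟩ := ha ρ₀ hρ₀pos (pow_le_of_le_one hρ₀pos.le hρ₀1 hN.ne')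
  -- a bound of the coefficients
  obtain ⟨M, hM⟩ : ∃ M : ℝ, ∀ z ∈ closedBall z₀ 1, ∀ i, ‖(Q.coeff i).eval z‖ ≤ M := by
    have hc : Continuous fun z : ℂ => ∑ i ∈ Finset.range (Q.natDegree + 1), ‖(Q.coeff i).eval z‖ :=
      continuous_finsetSum _ (fun i _ => (Q.coeff i).continuous.norm)
    obtain ⟨M, hM⟩ := (isCompact_closedBall z₀ 1).bddAbove_image hc.continuousOn
    refine ⟨M, fun z hz i => ?_⟩
    have h1 : ∑ i ∈ Finset.range (Q.natDegree + 1), ‖(Q.coeff i).eval z‖ ≤ M :=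
      hM ⟨z, hz, rfl⟩
    by_cases hi : i ∈ Finset.range (Q.natDegree + 1)
    · exact (Finset.single_le_sum (f := fun i => ‖(Q.coeff i).eval z‖)
        (fun i _ => norm_nonneg _) hi).trans h1
    · rw [Finset.mem_range, not_lt] at hi
      rw [coeff_eq_zero_of_natDegree_lt (by omega), eval_zero, norm_zero]
      exact (Finset.sum_nonneg (fun i _ => norm_nonneg _)).trans h1
  have hs : ∀ s ∈ ball (0 : ℂ) ρ₀ \ {0}, 0 < ‖(z₀ + s ^ N) - z₀‖ ∧ ‖(z₀ + s ^ N) - z₀‖ < ρ₀ := by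
    rintro s ⟨hs1, hs2⟩
    have hs0 : s ≠ 0 := hs2
    rw [mem_ball, dist_zero_right] at hs1
    rw [add_sub_cancel_left, norm_pow]
    refine ⟨pow_pos (norm_pos_iff.2 hs0) _, lt_of_le_of_lt ?_ hs1⟩
    exact pow_le_of_le_one (norm_nonneg _) (hs1.le.trans hρ₀1) hN.ne'
  have hbd : ∀ i, ∀ s ∈ ball (0 : ℂ) ρ₀ \ {0},
      ‖s ^ (N * m) * a i s‖ ≤ (M + M) / (‖g.eval z₀‖ / 2) := by
    intro i s hs'
    obtain ⟨h1, h2⟩ := hs s hs'
    obtain ⟨h3, h4, h5⟩ := hgood _ h1 h2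
    have h6 : a i s ∈ {x : ℂ | Q.evalEval (z₀ + s ^ N) x = 0} := by
      rw [ha3 s hs']; exact ⟨i, rfl⟩
    have h7 := root_bound Q h4 (hM _ (by
      rw [mem_closedBall, dist_eq_norm]; exact (h2.le.trans hρ₀1))) h6
    have h8 : Q.leadingCoeff.eval (z₀ + s ^ N) = s ^ (N * m) * g.eval (z₀ + s ^ N) := by
      conv_lhs => rw [hg]
      rw [eval_mul, eval_pow, eval_sub, eval_X, eval_C, add_sub_cancel_left, ← pow_mul]
    have hpos : 0 < ‖g.eval z₀‖ / 2 := by
      have := norm_pos_iff.2 hg0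
      linarith
    rw [le_div_iff₀ hpos]
    rw [h8, norm_mul] at h7
    calc ‖s ^ (N * m) * a i s‖ * (‖g.eval z₀‖ / 2) ≤
        ‖s ^ (N * m) * a i s‖ * ‖g.eval (z₀ + s ^ N)‖ := by gcongr
      _ = ‖s ^ (N * m)‖ * ‖g.eval (z₀ + s ^ N)‖ * ‖a i s‖ := by rw [norm_mul]; ring
      _ ≤ M + M := h7
  refine ⟨N, N * m, ρ₀, fun i => Function.update (fun s => s ^ (N * m) * a i s) 0
    (limUnder (𝓝[≠] 0) (fun s => s ^ (N * m) * a i s)), hN, hρ₀pos, ?_, ?_, ?_⟩
  · intro i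
    apply Complex.differentiableOn_update_limUnder_of_bddAbove (ball_mem_nhds _ hρ₀pos)
    · exact (DifferentiableOn.pow differentiableOn_id _).mul (ha1 i)
    · refine ⟨(M + M) / (‖g.eval z₀‖ / 2), ?_⟩
      rintro _ ⟨s, hs', rfl⟩
      exact hbd i s hs'
  · intro i j hij s hs'
    have hs0 : s ≠ 0 := hs'.2
    simp only [Function.update_of_ne hs0]
    intro heq
    exact ha2 i j hij s hs' (mul_left_cancel₀ (pow_ne_zero _ hs0) heq)
  · intro s hs'
    have hs0 : s ≠ 0 := hs'.2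
    obtain ⟨h1, h2⟩ := hs s hs'
    obtain ⟨h3, h4, h5⟩ := hgood _ h1 h2
    refine ⟨h3, h4, fun w => ?_⟩
    simp only [Function.update_of_ne hs0]
    have h6 : (Q.evalEval (z₀ + s ^ N) w = 0) ↔ w ∈ {x : ℂ | ∃ i, x = a i s} := by
      rw [← ha3 s hs']; rfl
    rw [h6]
    constructor
    · rintro ⟨i, hi⟩; exact ⟨i, by rw [hi]⟩
    · rintro ⟨i, hi⟩; exact ⟨i, mul_left_cancel₀ (pow_ne_zero _ hs0) hi⟩

end Pool.Agent.W800.CQPUIS
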